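import Pool.Agent.K4H13.CV.Hyp
import Pool.Agent.K4H13.CV.Ex2
import Pool.Agent.K4H13.CV.Hp
import Pool.Agent.K4H13.CV.Hpc
import Pool.Agent.K4H13.CV.Hpr
import Pool.Agent.K4H13.CV.Hpv

/-!
# The nonzero central values of the even newforms of weight two and prime level
-/

set_option autoImplicit false

open Complex Filter Topology Set UpperHalfPlane MatrixGroups CongruenceSubgroup

namespace Pool.Agent.Results.MP_cc4f83_nt.EvenCentralValues

/-- the cusp forms of weight 2 for `Γ₀(N)` -/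
abbrev S2 (N : ℕ) : Type := CuspForm (Gamma0 N : Subgroup (GL (Fin 2) ℝ)) 2

/-- the newforms of root number `ε`: `a(1) = 1`, real coefficients, Hecke relations, and
`f(-1/(Nz)) = - ε N z² f(z)` with `ε = 1` or `ε = -1` (see `W388.IsNewf`) -/
def H (N : ℕ) (ε : ℝ) : Set (S2 N) := {f | W388.IsNewf N 2 f ε}

/-- all newforms -/
def HH (N : ℕ) : Set (S2 N) := H N 1 ∪ H N (-1)

/-- `L` is the L-function of `f`: the entire continuation of `∑ λ_f(n) n^(-s)`, where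
`λ_f(n) = a(n) n^(-1/2)` -/
def IsLfun {N : ℕ} (f : S2 N) (L : ℂ → ℂ) : Prop :=
  Differentiable ℂ L ∧ ∀ s : ℂ, 3 < s.re → L s = ∑' n : ℕ, (W388.lamf f n : ℂ) * (n : ℂ) ^ (-s)

open Classical in
/-- the central value `L(1/2, f)` -/
noncomputable def cv {N : ℕ} (f : S2 N) : ℝ :=
  if h : ∃ L : ℂ → ℂ, IsLfun f L then (h.choose (1 / 2)).re else 0

/-- the filter of the primes `N → ∞` -/
def primes : Filter ℕ := atTop ⊓ 𝓟 {N : ℕ | N.Prime}

open Pool.Agent.K4H13.CV Pool.Agent.Y18.BSD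

theorem HH_eq (N : ℕ) : HH N = {f | ∃ ε : ℝ, W388.IsNewf N 2 f ε} := by
  ext f
  constructor
  · rintro (h | h)
    · exact ⟨1, h⟩
    · exact ⟨-1, h⟩
  · rintro ⟨ε, h⟩
    rcases h.sign with rfl | rfl
    · exact Or.inl h
    · exact Or.inr h

theorem lfun {N : ℕ} [NeZero N] {f : S2 N} {ε : ℝ} (hf : W388.IsNewf N 2 f ε) :
    ∃ L : ℂ → ℂ, IsLfun f L ∧ L (1 / 2) = (cv f : ℂ) := by
  obtain ⟨L, hL, -⟩ := exists_IsL hf
  have h : ∃ L : ℂ → ℂ, IsLfun f L := ⟨L, hL.diff, hL.eq⟩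
  have h1 : cv f = (h.choose (1 / 2)).re := by
    unfold cv
    rw [dif_pos h]
  have h2 : h.choose (1 / 2) = bv f 0 := lv_eq hf ⟨h.choose_spec.1, h.choose_spec.2⟩
  refine ⟨h.choose, h.choose_spec, ?_⟩
  rw [h1, h2]
  exact (bv_zero_real hf).symm

theorem cv_eq {N : ℕ} [NeZero N] {f : S2 N} {ε : ℝ} (hf : W388.IsNewf N 2 f ε) :
    (cv f : ℂ) = bv f 0 := by
  obtain ⟨L, hL, h⟩ := lfun hf
  rw [← h]
  exact lv_eq hf ⟨hL.1, hL.2⟩

theorem norm_cv {N : ℕ} [NeZero N] {f : S2 N} {ε : ℝ} (hf : W388.IsNewf N 2 f ε) :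
    |cv f| = ‖bv f 0‖ := by
  rw [← cv_eq hf, Complex.norm_real, Real.norm_eq_abs]

theorem ne_iff {N : ℕ} [NeZero N] {f : S2 N} {ε : ℝ} (hf : W388.IsNewf N 2 f ε) :
    cv f ≠ 0 ↔ bv f 0 ≠ 0 := by
  rw [← cv_eq hf]
  exact_mod_cast Iff.rfl

/-- the number of the odd newforms -/
theorem hp : S_HP := HpP.hp_of (hpv span (free span) (wt span)) hpc hpr

/-- everything for one prime -/
theorem one {N : ℕ} (hN : N.Prime) (h3 : 3 ≤ N) : ∃ B : Finset (S2 N), HH N = B ∧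
    N ≤ 12 * B.card + 13 ∧ 2 * B.card ≤ N ∧
    (N : ℝ) ^ (-((332 : ℝ) * (B.card : ℝ))) ≤ ∏ f ∈ B with |cv f| ≠ 0, |cv f| ∧
    (∀ f ∈ B, |cv f| ≤ (N : ℝ) ^ (3 : ℝ)) ∧ (∀ f ∈ B, cv f ≠ 0 → f ∈ H N 1) ∧
    ∀ P : Finset (S2 N), P ⊆ B → (∀ f ∈ P, f ∈ H N (-1)) → 18 * P.card ≤ N + 13 := by
  haveI : NeZero N := ⟨hN.ne_zero⟩
  obtain ⟨B, hB, hBm⟩ := newform_basis N hN
  have h2 : N ≠ 2 := by omega
  have hnewf : ∀ f ∈ B, ∃ ε : ℝ, W388.IsNewf N 2 f ε := fun f hf => (hBm f).1 hf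
  have hN0 : (0 : ℝ) < N := Nat.cast_pos.2 hN.pos
  obtain ⟨d1, d2, -⟩ := dimS hyp hN h2 hB
  have d3 := card_le hyp hN h2 hB
  refine ⟨B, ?_, d2, by omega, ?_, ?_, ?_, ?_⟩
  · rw [HH_eq]
    ext f
    exact (hBm f).symm
  · classical
    have h1 := prod_low hyp hN h2 hB
    have e1 : ∏ f ∈ (Finset.univ : Finset B).filter (fun f => bv f.1 0 ≠ 0), ‖bv f.1 0‖ =
        ∏ f ∈ B with |cv f| ≠ 0, |cv f| := by
      rw [Finset.prod_filter, Finset.prod_filter,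
        ← Finset.prod_coe_sort B (fun f => if |cv f| ≠ 0 then |cv f| else 1)]
      refine Finset.prod_congr rfl fun f _ => ?_
      obtain ⟨ε, hε⟩ := hnewf f.1 f.2
      rw [norm_cv hε]
      simp only [ne_eq, norm_eq_zero]
    rw [← e1]
    refine le_trans (le_of_eq ?_) h1
    rw [Real.rpow_neg hN0.le, one_div]
    congr 1
    rw [show (332 : ℝ) * (B.card : ℝ) = ((332 * B.card : ℕ) : ℝ) by push_cast; rfl,
      Real.rpow_natCast]
  · intro f hf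
    obtain ⟨ε, hε⟩ := hnewf f hf
    rw [norm_cv hε]
    refine (bv_zero_bd hε (coef N hN f ε hε)).trans ?_
    have h3' : (3 : ℝ) ≤ N := by exact_mod_cast h3
    have e : (N : ℝ) ^ (3 : ℝ) = (N : ℝ) ^ 3 := by
      rw [show (3 : ℝ) = ((3 : ℕ) : ℝ) by norm_num, Real.rpow_natCast]
    rw [e]
    nlinarith [mul_pos hN0 hN0, mul_nonneg hN0.le (mul_self_nonneg ((N : ℝ) - 3))]
  · intro f hf hne
    obtain ⟨ε, hε⟩ := hnewf f hf
    have h4 := sign_of_ne hε ((ne_iff hε).1 hne)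
    rw [h4] at hε
    exact hε
  · intro P hP hPm
    have := hp N hN h2 B hB P hP hPm
    omega

/-- there are many even newforms -/
theorem even_many {N : ℕ} (hN : N.Prime) (h3 : 3 ≤ N) : N ≤ 36 * (H N 1).ncard + 65 ∧
    (650 ≤ N → (HH N).ncard ≤ 20 * (H N 1).ncard) := by
  classical
  obtain ⟨B, hB, hd, hc, -, -, -, hP⟩ := one hN h3
  have hfin : (HH N).Finite := by rw [hB]; exact B.finite_toSet
  have hm : (H N (-1)).ncard ≤ (B.filter fun f => f ∈ H N (-1)).card := by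
    rw [← Set.ncard_coe_finset]
    refine Set.ncard_le_ncard (fun f hf => ?_) (Finset.finite_toSet _)
    rw [Finset.coe_filter]
    have : f ∈ HH N := Or.inr hf
    rw [hB] at this
    exact ⟨this, hf⟩
  have h1 := hP _ (Finset.filter_subset (fun f => f ∈ H N (-1)) B) fun f hf => (Finset.mem_filter.1 hf).2
  have h2 : B.card ≤ (H N 1).ncard + (H N (-1)).ncard := by
    rw [← Set.ncard_coe_finset, ← hB]
    exact Set.ncard_union_le _ _
  have h4 : (HH N).ncard = B.card := by rw [hB, Set.ncard_coe_finset]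
  rw [h4]
  constructor
  · omega
  · intro _
    omega

/-- the number of the small values -/
theorem small_count {N : ℕ} (hN : N.Prime) (h3 : 3 ≤ N) {A : ℝ} (hA : 0 < A) :
    (({f ∈ H N 1 | cv f ≠ 0 ∧ |cv f| < (N : ℝ) ^ (-A)}.ncard : ℕ) : ℝ) ≤
      335 / A * ((HH N).ncard : ℝ) := by
  classical
  obtain ⟨B, hB, -, -, hp, hu, hs, -⟩ := one hN h3
  have h1 := Fin.count B (fun f => |cv f|) (N : ℝ) 332 3 A (by exact_mod_cast hN.one_lt) hA
    (by norm_num) (by norm_num) (fun f _ => abs_nonneg _) hu hp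
  have e1 : ({f ∈ H N 1 | cv f ≠ 0 ∧ |cv f| < (N : ℝ) ^ (-A)} : Set (S2 N)) ⊆
      ((B.filter fun f => |cv f| ≠ 0 ∧ |cv f| < (N : ℝ) ^ (-A) : Finset (S2 N)) : Set (S2 N)) := by
    intro f hf
    have : f ∈ HH N := Or.inl hf.1
    rw [hB] at this
    rw [Finset.coe_filter]
    exact ⟨this, abs_ne_zero.2 hf.2.1, hf.2.2⟩
  have h2 := Set.ncard_le_ncard e1 (Finset.finite_toSet _)
  rw [Set.ncard_coe_finset] at h2
  have h4 : (HH N).ncard = B.card := by rw [hB, Set.ncard_coe_finset]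
  rw [h4]
  refine (Nat.cast_le.2 h2).trans (h1.trans (le_of_eq ?_))
  norm_num

/-- the same with the number of the even newforms -/
theorem small_count' {N : ℕ} (hN : N.Prime) (h3 : 650 ≤ N) {A : ℝ} (hA : 0 < A) :
    (({f ∈ H N 1 | cv f ≠ 0 ∧ |cv f| < (N : ℝ) ^ (-A)}.ncard : ℕ) : ℝ) ≤
      6700 / A * ((H N 1).ncard : ℝ) := by
  have h1 := small_count hN (by omega) hA
  have h2 : ((HH N).ncard : ℝ) ≤ 20 * ((H N 1).ncard : ℝ) := by
    exact_mod_cast (even_many hN (by omega)).2 h3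
  have h4 : (0 : ℝ) ≤ 335 / A := by positivity
  calc _ ≤ 335 / A * ((HH N).ncard : ℝ) := h1
    _ ≤ 335 / A * (20 * ((H N 1).ncard : ℝ)) := mul_le_mul_of_nonneg_left h2 h4
    _ = 6700 / A * ((H N 1).ncard : ℝ) := by ring

/-- the product -/
theorem prod_even {N : ℕ} (hN : N.Prime) (h3 : 3 ≤ N) :
    (N : ℝ) ^ (-(332 * ((HH N).ncard : ℝ))) ≤ ∏ᶠ f ∈ {f ∈ H N 1 | cv f ≠ 0}, |cv f| := by
  classical
  obtain ⟨B, hB, -, -, hp, -, hs, -⟩ := one hN h3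
  rw [hB, Set.ncard_coe_finset]
  refine hp.trans (le_of_eq ?_)
  have e1 : ({f ∈ H N 1 | cv f ≠ 0} : Set (S2 N)) =
      ((B.filter fun f => |cv f| ≠ 0 : Finset (S2 N)) : Set (S2 N)) := by
    ext f
    rw [Finset.coe_filter]
    constructor
    · intro hf
      have : f ∈ HH N := Or.inl hf.1
      rw [hB] at this
      exact ⟨this, abs_ne_zero.2 hf.2⟩
    · intro hf
      exact ⟨hs f hf.1 (abs_ne_zero.1 hf.2), abs_ne_zero.1 hf.2⟩
  rw [e1, finprod_mem_coe_finset]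

theorem result :
    (∀ N : ℕ, N.Prime → (H N 1).Finite ∧
      ∀ f ∈ H N 1, ∃ L : ℂ → ℂ, IsLfun f L ∧ L (1 / 2) = (cv f : ℂ)) ∧
    (∀ N : ℕ, N.Prime → 650 ≤ N →
      (N : ℝ) ^ (-(6640 * ((H N 1).ncard : ℝ))) ≤ ∏ᶠ f ∈ {f ∈ H N 1 | cv f ≠ 0}, |cv f|) ∧
    (∀ N : ℕ, N.Prime → 650 ≤ N → ∀ A : ℝ, 0 < A →
      (({f ∈ H N 1 | cv f ≠ 0 ∧ |cv f| < (N : ℝ) ^ (-A)}.ncard : ℕ) : ℝ) ≤
        6700 / A * ((H N 1).ncard : ℝ)) ∧
    (∀ θ : ℝ, θ < liminf (fun N : ℕ =>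
        (({f ∈ H N 1 | cv f ≠ 0}.ncard : ℕ) : ℝ) / ((H N 1).ncard : ℝ)) primes ↔
      ∃ A : ℝ, 0 < A ∧ θ < liminf (fun N : ℕ =>
        (({f ∈ H N 1 | (N : ℝ) ^ (-A) ≤ |cv f|}.ncard : ℕ) : ℝ) / ((H N 1).ncard : ℝ)) primes) ∧
    (∀ N : ℕ, N.Prime → 3 ≤ N → N ≤ 36 * (H N 1).ncard + 65 ∧
      (N : ℝ) ^ (-(332 * ((HH N).ncard : ℝ))) ≤ ∏ᶠ f ∈ {f ∈ H N 1 | cv f ≠ 0}, |cv f| ∧
      ∀ A : ℝ, 0 < A → (({f ∈ H N 1 | cv f ≠ 0 ∧ |cv f| < (N : ℝ) ^ (-A)}.ncard : ℕ) : ℝ) ≤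
        335 / A * ((HH N).ncard : ℝ)) := by
  refine ⟨fun N hN => ?_, fun N hN h3 => ?_, fun N hN h3 A hA => small_count' hN h3 hA,
    fun θ => ?_, fun N hN h3 => ⟨(even_many hN h3).1, prod_even hN h3,
      fun A hA => small_count hN h3 hA⟩⟩
  · haveI : NeZero N := ⟨hN.ne_zero⟩
    obtain ⟨B, -, hBm⟩ := newform_basis N hN
    constructor
    · refine (B.finite_toSet).subset fun f hf => (hBm f).2 ⟨1, hf⟩
    · intro f hf
      exact lfun hf
  · refine le_trans ?_ (prod_even hN (by omega))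
    have hN1 : (1 : ℝ) ≤ N := by exact_mod_cast hN.one_le
    refine Real.rpow_le_rpow_of_exponent_le hN1 ?_
    have h2 : ((HH N).ncard : ℝ) ≤ 20 * ((H N 1).ncard : ℝ) := by
      exact_mod_cast (even_many hN (by omega)).2 h3
    linarith
  · have hbot : primes.NeBot := by
      unfold primes
      rw [← frequently_mem_iff_neBot]
      exact Nat.frequently_atTop_iff_infinite.2 Nat.infinite_setOf_prime
    have hprime : ∀ᶠ N in primes, N.Prime :=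
      (eventually_principal.2 fun _ h => h : ∀ᶠ N in 𝓟 {N : ℕ | N.Prime}, N.Prime).filter_mono
        inf_le_right
    have hlarge : ∀ᶠ N in primes, 650 ≤ N :=
      (eventually_ge_atTop 650).filter_mono inf_le_left
    refine Fin.liminf_iff (l := primes) (fun N => ((H N 1).ncard : ℝ))
      (fun N => (({f ∈ H N 1 | cv f ≠ 0}.ncard : ℕ) : ℝ))
      (fun A N => (({f ∈ H N 1 | (N : ℝ) ^ (-A) ≤ |cv f|}.ncard : ℕ) : ℝ)) 6700 (by norm_num)
      ?_ ?_ ?_ ?_ θ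
    · filter_upwards [hprime, hlarge] with N hN h100
      have := (even_many hN (by omega)).1
      have : 0 < (H N 1).ncard := by omega
      exact_mod_cast this
    · filter_upwards [hprime, hlarge] with N hN h100
      obtain ⟨B, hB, -⟩ := one hN (by omega)
      refine ⟨Nat.cast_nonneg _, ?_⟩
      have hfin : (H N 1).Finite := (by rw [hB]; exact B.finite_toSet : (HH N).Finite).subset
        fun f hf => Or.inl hf
      have hs : {f ∈ H N 1 | cv f ≠ 0} ⊆ H N 1 := fun f hf => hf.1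
      exact Nat.cast_le.2 (Set.ncard_le_ncard hs hfin)
    · intro A
      filter_upwards [hprime, hlarge] with N hN h100
      obtain ⟨B, hB, -⟩ := one hN (by omega)
      refine ⟨Nat.cast_nonneg _, ?_⟩
      have hfin : (HH N).Finite := by rw [hB]; exact B.finite_toSet
      have hN0 : (0 : ℝ) < N := Nat.cast_pos.2 hN.pos
      have hs : {f ∈ H N 1 | (N : ℝ) ^ (-A) ≤ |cv f|} ⊆ {f ∈ H N 1 | cv f ≠ 0} := by
        refine fun f hf => ⟨hf.1, fun h0 => ?_⟩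
        have h1 := hf.2
        rw [h0, abs_zero] at h1
        exact absurd (Real.rpow_pos_of_pos hN0 (-A)) (not_lt.2 h1)
      exact Nat.cast_le.2 (Set.ncard_le_ncard hs (hfin.subset fun f hf => Or.inl hf.1))
    · intro A hA
      filter_upwards [hprime, hlarge] with N hN h100
      obtain ⟨B, hB, -⟩ := one hN (by omega)
      have hfin : (HH N).Finite := by rw [hB]; exact B.finite_toSet
      have hN0 : (0 : ℝ) < N := Nat.cast_pos.2 hN.pos
      have h1 := small_count' hN h100 hA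
      have h2 : {f ∈ H N 1 | cv f ≠ 0} ⊆ {f ∈ H N 1 | (N : ℝ) ^ (-A) ≤ |cv f|} ∪
          {f ∈ H N 1 | cv f ≠ 0 ∧ |cv f| < (N : ℝ) ^ (-A)} := by
        intro f hf
        rcases le_or_gt ((N : ℝ) ^ (-A)) |cv f| with h | h
        · exact Or.inl ⟨hf.1, h⟩
        · exact Or.inr ⟨hf.1, hf.2, h⟩
      have h3 : {f ∈ H N 1 | cv f ≠ 0}.ncard ≤ {f ∈ H N 1 | (N : ℝ) ^ (-A) ≤ |cv f|}.ncard +
          {f ∈ H N 1 | cv f ≠ 0 ∧ |cv f| < (N : ℝ) ^ (-A)}.ncard := by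
        refine (Set.ncard_le_ncard h2 ?_).trans (Set.ncard_union_le _ _)
        exact (hfin.subset fun f hf => Or.inl hf.1).union (hfin.subset fun f hf => Or.inl hf.1)
      have h4 : (({f ∈ H N 1 | cv f ≠ 0}.ncard : ℕ) : ℝ) ≤
          (({f ∈ H N 1 | (N : ℝ) ^ (-A) ≤ |cv f|}.ncard : ℕ) : ℝ) +
          (({f ∈ H N 1 | cv f ≠ 0 ∧ |cv f| < (N : ℝ) ^ (-A)}.ncard : ℕ) : ℝ) := by
        exact_mod_cast h3
      linarith

end Pool.Agent.Results.MP_cc4f83_nt.EvenCentralValues
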