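import Pool.Agent.Results.MP_cc4f83_nt.EvenCentralValues
import Pool.Agent.K4H52.TW.Prod
import Pool.Agent.K4H52.TW.TwL
import Pool.Agent.K4H13.CV.Twh

/-!
# Central values of the newforms of weight two and prime level over quadratic fields
-/

set_option autoImplicit false

open Complex Filter Topology Set UpperHalfPlane MatrixGroups CongruenceSubgroup

namespace Pool.Agent.Results.MP_cc4f83_nt.QuadraticFields

open Pool.Agent.Results.MP_cc4f83_nt.EvenCentralValues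

/-- `L` is the L-function of `f ⊗ χ`: the entire continuation of `∑ χ(n) λ_f(n) n^(-s)` -/
def IsLtw {N : ℕ} (f : S2 N) {q : ℕ} (χ : DirichletCharacter ℂ q) (L : ℂ → ℂ) : Prop :=
  Differentiable ℂ L ∧ ∀ s : ℂ, 3 < s.re →
    L s = ∑' n : ℕ, χ (n : ZMod q) * (W388.lamf f n : ℂ) * (n : ℂ) ^ (-s)

open Classical in
/-- the absolute value of the central value `L(1/2, f ⊗ χ)` -/
noncomputable def ctw {N q : ℕ} (f : S2 N) (χ : DirichletCharacter ℂ q) : ℝ :=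
  if h : ∃ L : ℂ → ℂ, IsLtw f χ L then ‖h.choose (1 / 2)‖ else 0

/-- the real primitive characters of conductor `q > 1`, prime to `N` -/
structure RealPrim (N q : ℕ) (χ : DirichletCharacter ℂ q) : Prop where
  one_lt : 1 < q
  coprime : q.Coprime N
  prim : χ.IsPrimitive
  real : χ.IsQuadratic

open Pool.Agent.K4H13.CV Pool.Agent.Y18.BSD
open W388.LV (IsNewBasis)

theorem RealPrim.ne_one {N q : ℕ} {χ : DirichletCharacter ℂ q} (h : RealPrim N q χ) : χ ≠ 1 := by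
  haveI : NeZero q := ⟨by have := h.one_lt; omega⟩
  intro h1
  have h2 := h.prim
  rw [h1] at h2
  have h3 : (1 : DirichletCharacter ℂ q).conductor = q := h2
  rw [DirichletCharacter.conductor_one] at h3
  have := h.one_lt
  omega

theorem ctw_nonneg {N q : ℕ} (f : S2 N) (χ : DirichletCharacter ℂ q) : 0 ≤ ctw f χ := by
  unfold ctw
  split_ifs
  · exact norm_nonneg _
  · exact le_rfl

theorem ltw {N : ℕ} [NeZero N] {f : S2 N} {ε : ℝ} (hf : W388.IsNewf N 2 f ε) {q : ℕ} [NeZero q]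
    {χ : DirichletCharacter ℂ q} (h : RealPrim N q χ) :
    ∃ L : ℂ → ℂ, IsLtw f χ L ∧ ‖L (1 / 2)‖ = ctw f χ := by
  obtain ⟨L, hL, -⟩ := exists_IsLt hf h.coprime h.prim h.real
  have h1 : ∃ L : ℂ → ℂ, IsLtw f χ L := ⟨L, hL.diff, hL.eq⟩
  refine ⟨h1.choose, h1.choose_spec, ?_⟩
  unfold ctw
  rw [dif_pos h1]

theorem ctw_eq {N : ℕ} [NeZero N] {f : S2 N} {ε : ℝ} (hf : W388.IsNewf N 2 f ε) {q : ℕ} [NeZero q]
    {χ : DirichletCharacter ℂ q} (h : RealPrim N q χ) :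
    ‖JX f χ‖ = Real.sqrt q * ctw f χ := by
  obtain ⟨L, hL, hL2⟩ := ltw hf h
  rw [← hL2]
  exact lt_eq hf h.coprime h.prim h.real ⟨hL.1, hL.2⟩

theorem tw_prod {N : ℕ} [NeZero N] (hN : N.Prime) (h2 : N ≠ 2) {B : Finset (Cf2 N)}
    (hB : IsNewBasis N 2 B) {q : ℕ} [NeZero q] {χ : DirichletCharacter ℂ q} (h : RealPrim N q χ) :
    1 / (N : ℝ) ^ (330 * B.card) ≤ ∏ f ∈ B with ctw f χ ≠ 0, (Real.sqrt q * ctw f χ) := by
  classical
  have hq : (0 : ℝ) < Real.sqrt q := Real.sqrt_pos.2 (Nat.cast_pos.2 (by have := h.one_lt; omega))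
  obtain ⟨s, hs⟩ : ∃ s : ℝ, ∀ f : B, JX f.1 χ ≠ 0 → W388.IsNewf N 2 f.1 s := by
    refine ⟨(χ (-(N : ZMod q))).re, fun f hf => ?_⟩
    obtain ⟨ε, hε⟩ := hB.newf f.1 f.2
    have h3 := tws N hN f.1 ε hε q h.coprime χ h.real h.ne_one hf
    rw [← h3, Complex.ofReal_re]
    exact hε
  obtain ⟨c, I, hc, hI⟩ : ∃ (c : ℂ) (I : B → ℝ), (c = 1 ∨ c = Complex.I) ∧
      ∀ f : B, JX f.1 χ = c * (I f : ℂ) := by
    have h4 : χ (-1) = 1 ∨ χ (-1) = -1 := by
      have := TwmP.quad_unit h.real (-1 : (ZMod q)ˣ)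
      rwa [Units.val_neg, Units.val_one] at this
    rcases h4 with h4 | h4
    · refine ⟨1, fun f => (JX f.1 χ).re, Or.inl rfl, fun f => ?_⟩
      obtain ⟨ε, hε⟩ := hB.newf f.1 f.2
      have h5 := (twr N hN f.1 ε hε q h.coprime χ h.real h.ne_one).1 h4
      rw [one_mul]
      apply Complex.ext
      · rw [Complex.ofReal_re]
      · rw [Complex.ofReal_im, h5]
    · refine ⟨Complex.I, fun f => (JX f.1 χ).im, Or.inr rfl, fun f => ?_⟩
      obtain ⟨ε, hε⟩ := hB.newf f.1 f.2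
      have h5 := (twr N hN f.1 ε hε q h.coprime χ h.real h.ne_one).2 h4
      apply Complex.ext
      · rw [h5]; simp
      · simp
  have hcn : ‖c‖ = 1 := by rcases hc with rfl | rfl <;> simp
  have hc0 : c ≠ 0 := by rcases hc with rfl | rfl; exacts [one_ne_zero, Complex.I_ne_zero]
  have hIn : ∀ f : B, |I f| = ‖JX f.1 χ‖ := by
    intro f
    rw [hI f, norm_mul, hcn, one_mul, Complex.norm_real, Real.norm_eq_abs]
  have key := prodG hyp hN h2 hB I s (fun f hf => hs f (by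
      rw [hI f]
      exact mul_ne_zero hc0 (Complex.ofReal_ne_zero.2 hf))) c hc (fun n hn => by
      have := twm N hN B hB.newf q h.coprime χ h.real h.ne_one n hn
      refine (congrArg (· ∈ LL B) ?_).mp this
      funext f
      rw [hI f]
      ring)
  refine key.trans (le_of_eq ?_)
  rw [Finset.prod_filter, Finset.prod_filter,
    ← Finset.prod_coe_sort B (fun f => if ctw f χ ≠ 0 then Real.sqrt q * ctw f χ else 1)]
  refine Finset.prod_congr rfl fun f _ => ?_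
  obtain ⟨ε, hε⟩ := hB.newf f.1 f.2
  have h6 : |I f| = Real.sqrt q * ctw f.1 χ := by rw [hIn, ctw_eq hε h]
  have h7 : I f ≠ 0 ↔ ctw f.1 χ ≠ 0 := by
    rw [← abs_ne_zero, h6]
    constructor
    · intro h8 h9
      exact h8 (by rw [h9, mul_zero])
    · intro h8
      exact mul_ne_zero hq.ne' h8
  simp only [h7, h6]

/-- everything for one prime and one character -/
theorem tone {N : ℕ} (hN : N.Prime) (h3 : 3 ≤ N) {q : ℕ} {χ : DirichletCharacter ℂ q}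
    (h : RealPrim N q χ) : ∃ B : Finset (S2 N), HH N = B ∧
    ((q * N : ℕ) : ℝ) ^ (-((330 : ℝ) * (B.card : ℝ))) ≤ ∏ f ∈ B with ctw f χ ≠ 0, ctw f χ ∧
    ∀ f ∈ B, ctw f χ ≤ ((q * N : ℕ) : ℝ) ^ (7 : ℝ) := by
  haveI : NeZero N := ⟨hN.ne_zero⟩
  haveI : NeZero q := ⟨by have := h.one_lt; omega⟩
  obtain ⟨B, hB, hBm⟩ := newform_basis N hN
  have h2 : N ≠ 2 := by omega
  have hN0 : (0 : ℝ) < N := Nat.cast_pos.2 hN.pos
  have hq1 : (1 : ℝ) ≤ q := by exact_mod_cast h.one_lt.le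
  have hsq1 : (1 : ℝ) ≤ Real.sqrt q := Real.one_le_sqrt.2 hq1
  have hN1 : (1 : ℝ) ≤ N := by exact_mod_cast hN.one_le
  have hsqq : Real.sqrt q ≤ q := by
    have := Real.sq_sqrt (by linarith : (0 : ℝ) ≤ q)
    nlinarith
  refine ⟨B, ?_, ?_, ?_⟩
  · rw [HH_eq]
    ext f
    exact (hBm f).symm
  · have h4 := tw_prod hN h2 hB h
    rw [Finset.prod_mul_distrib, Finset.prod_const] at h4
    have h5 : Real.sqrt q ^ (B.filter fun f => ctw f χ ≠ 0).card ≤ (q : ℝ) ^ (330 * B.card) := by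
      calc Real.sqrt q ^ (B.filter fun f => ctw f χ ≠ 0).card ≤ Real.sqrt q ^ (330 * B.card) := by
            refine pow_le_pow_right₀ hsq1 ((Finset.card_filter_le _ _).trans ?_)
            omega
        _ ≤ (q : ℝ) ^ (330 * B.card) := by gcongr
    have hP : 0 ≤ ∏ f ∈ B with ctw f χ ≠ 0, ctw f χ := Finset.prod_nonneg fun f _ => ctw_nonneg f χ
    have h6 : 1 / (N : ℝ) ^ (330 * B.card) ≤ (q : ℝ) ^ (330 * B.card) *
        ∏ f ∈ B with ctw f χ ≠ 0, ctw f χ := h4.trans (mul_le_mul_of_nonneg_right h5 hP)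
    have h7 : 1 / ((q * N : ℕ) : ℝ) ^ (330 * B.card) ≤ ∏ f ∈ B with ctw f χ ≠ 0, ctw f χ := by
      push_cast
      rw [mul_pow, div_le_iff₀ (by positivity)]
      rw [div_le_iff₀ (by positivity)] at h6
      calc (1 : ℝ) ≤ _ := h6
        _ = _ := by ring
    refine le_trans (le_of_eq ?_) h7
    rw [Real.rpow_neg (by positivity), one_div]
    congr 1
    rw [show (330 : ℝ) * (B.card : ℝ) = ((330 * B.card : ℕ) : ℝ) by push_cast; rfl,
      Real.rpow_natCast]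
  · intro f hf
    obtain ⟨ε, hε⟩ := (hBm f).1 hf
    have h4 := ctw_eq hε h
    have h5 := twb N hN f ε hε q h.coprime χ h.real h.ne_one
    rw [h4] at h5
    have h6 : ctw f χ ≤ Real.sqrt q * ctw f χ := by
      nlinarith [ctw_nonneg f χ]
    have h7 : (6 : ℝ) ≤ (q : ℝ) * N := by
      have h8 : 2 ≤ q := h.one_lt
      have h9 : 2 * 3 ≤ q * N := Nat.mul_le_mul h8 h3
      exact_mod_cast h9
    have h8 : ((q * N : ℕ) : ℝ) ^ (7 : ℝ) = ((q : ℝ) * N) ^ 7 := by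
      rw [show (7 : ℝ) = ((7 : ℕ) : ℝ) by norm_num, Real.rpow_natCast]
      push_cast
      rfl
    rw [h8]
    calc ctw f χ ≤ 100 * ((q : ℝ) * N) ^ 4 := h6.trans h5
      _ ≤ ((q : ℝ) * N) ^ 3 * ((q : ℝ) * N) ^ 4 := by
        refine mul_le_mul_of_nonneg_right ?_ (by positivity)
        calc (100 : ℝ) ≤ 6 ^ 3 := by norm_num
          _ ≤ _ := by gcongr
      _ = ((q : ℝ) * N) ^ 7 := by ring

/-- the number of the small twisted values -/
theorem tw_count {N : ℕ} (hN : N.Prime) (h3 : 3 ≤ N) {q : ℕ} {χ : DirichletCharacter ℂ q}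
    (h : RealPrim N q χ) {A : ℝ} (hA : 0 < A) :
    (({f ∈ HH N | ctw f χ ≠ 0 ∧ ctw f χ < ((q * N : ℕ) : ℝ) ^ (-A)}.ncard : ℕ) : ℝ) ≤
      337 / A * ((HH N).ncard : ℝ) := by
  classical
  obtain ⟨B, hB, hp, hu⟩ := tone hN h3 h
  have h9 : 1 < q * N := by
    have h8 : 2 ≤ q := h.one_lt
    have h9 : 2 * 3 ≤ q * N := Nat.mul_le_mul h8 h3
    omega
  have h1 := Fin.count B (fun f => ctw f χ) ((q * N : ℕ) : ℝ) 330 7 A (by exact_mod_cast h9) hA
    (by norm_num) (by norm_num) (fun f _ => ctw_nonneg f χ) hu hp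
  have e1 : ({f ∈ HH N | ctw f χ ≠ 0 ∧ ctw f χ < ((q * N : ℕ) : ℝ) ^ (-A)} : Set (S2 N)) =
      ((B.filter fun f => ctw f χ ≠ 0 ∧ ctw f χ < ((q * N : ℕ) : ℝ) ^ (-A) : Finset (S2 N)) :
        Set (S2 N)) := by
    ext f
    rw [hB]
    simp
  rw [e1, Set.ncard_coe_finset, hB, Set.ncard_coe_finset]
  convert h1 using 2
  norm_num

/-- the number of the small products -/
theorem bc_count {N : ℕ} (hN : N.Prime) (h3 : 650 ≤ N) {q : ℕ} {χ : DirichletCharacter ℂ q}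
    (h : RealPrim N q χ) {A : ℝ} (hA : 0 < A) :
    (({f ∈ H N 1 | |cv f| * ctw f χ ≠ 0 ∧ |cv f| * ctw f χ < ((q * N : ℕ) : ℝ) ^ (-A)}.ncard : ℕ) : ℝ)
      ≤ 26880 / A * ((H N 1).ncard : ℝ) := by
  classical
  obtain ⟨B, hB, -⟩ := one hN (by omega)
  have hfin : (HH N).Finite := by rw [hB]; exact B.finite_toSet
  have hN0 : (0 : ℝ) < N := Nat.cast_pos.2 hN.pos
  have hqN : (N : ℝ) ≤ ((q * N : ℕ) : ℝ) := by
    have : 1 * N ≤ q * N := Nat.mul_le_mul h.one_lt.le le_rfl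
    rw [one_mul] at this
    exact_mod_cast this
  have hM0 : (0 : ℝ) < ((q * N : ℕ) : ℝ) := lt_of_lt_of_le hN0 hqN
  have hA2 : 0 < A / 2 := by positivity
  have h1 := small_count hN (by omega) hA2
  have h2 := tw_count hN (by omega) h hA2
  have hsub : {f ∈ H N 1 | |cv f| * ctw f χ ≠ 0 ∧ |cv f| * ctw f χ < ((q * N : ℕ) : ℝ) ^ (-A)} ⊆
      {f ∈ H N 1 | cv f ≠ 0 ∧ |cv f| < (N : ℝ) ^ (-(A / 2))} ∪
      {f ∈ HH N | ctw f χ ≠ 0 ∧ ctw f χ < ((q * N : ℕ) : ℝ) ^ (-(A / 2))} := by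
    rintro f ⟨hf, hne, hlt⟩
    rcases lt_or_ge |cv f| ((N : ℝ) ^ (-(A / 2))) with h4 | h4
    · exact Or.inl ⟨hf, abs_ne_zero.1 (left_ne_zero_of_mul hne), h4⟩
    · right
      refine ⟨Or.inl hf, right_ne_zero_of_mul hne, ?_⟩
      by_contra h5
      rw [not_lt] at h5
      have h6 : ((q * N : ℕ) : ℝ) ^ (-(A / 2)) ≤ |cv f| := by
        refine le_trans ?_ h4
        rw [Real.rpow_neg hM0.le, Real.rpow_neg hN0.le]
        exact inv_anti₀ (Real.rpow_pos_of_pos hN0 _) (Real.rpow_le_rpow hN0.le hqN hA2.le)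
      have h7 : ((q * N : ℕ) : ℝ) ^ (-A) ≤ |cv f| * ctw f χ := by
        calc ((q * N : ℕ) : ℝ) ^ (-A) = ((q * N : ℕ) : ℝ) ^ (-(A / 2)) * ((q * N : ℕ) : ℝ) ^ (-(A / 2)) := by
              rw [← Real.rpow_add hM0]
              congr 1
              ring
          _ ≤ |cv f| * ctw f χ := mul_le_mul h6 h5 (Real.rpow_nonneg hM0.le _) (abs_nonneg _)
      linarith
  have hs1 : ({f ∈ H N 1 | cv f ≠ 0 ∧ |cv f| < (N : ℝ) ^ (-(A / 2))} : Set (S2 N)) ⊆ HH N :=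
    fun f hf => Or.inl hf.1
  have hs2 : ({f ∈ HH N | ctw f χ ≠ 0 ∧ ctw f χ < ((q * N : ℕ) : ℝ) ^ (-(A / 2))} : Set (S2 N)) ⊆
    HH N := fun f hf => hf.1
  have h5 : {f ∈ H N 1 | |cv f| * ctw f χ ≠ 0 ∧ |cv f| * ctw f χ < ((q * N : ℕ) : ℝ) ^ (-A)}.ncard ≤
      {f ∈ H N 1 | cv f ≠ 0 ∧ |cv f| < (N : ℝ) ^ (-(A / 2))}.ncard +
      {f ∈ HH N | ctw f χ ≠ 0 ∧ ctw f χ < ((q * N : ℕ) : ℝ) ^ (-(A / 2))}.ncard :=
    (Set.ncard_le_ncard hsub ((hfin.subset hs1).union (hfin.subset hs2))).trans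
      (Set.ncard_union_le _ _)
  have h6 : ((HH N).ncard : ℝ) ≤ 20 * ((H N 1).ncard : ℝ) := by
    exact_mod_cast (even_many hN (by omega)).2 h3
  have h7 := (Nat.cast_le (α := ℝ)).2 h5
  push_cast at h7
  have h8 : 335 / (A / 2) * ((HH N).ncard : ℝ) + 337 / (A / 2) * ((HH N).ncard : ℝ) =
      1344 / A * ((HH N).ncard : ℝ) := by
    field_simp
    ring
  have h9 : 1344 / A * ((HH N).ncard : ℝ) ≤ 1344 / A * (20 * ((H N 1).ncard : ℝ)) :=
    mul_le_mul_of_nonneg_left h6 (by positivity)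
  have h10 : 1344 / A * (20 * ((H N 1).ncard : ℝ)) = 26880 / A * ((H N 1).ncard : ℝ) := by ring
  push_cast at h1 h2 ⊢
  linarith

theorem result :
    (∀ N q : ℕ, N.Prime → ∀ χ : DirichletCharacter ℂ q, RealPrim N q χ → ∀ f ∈ HH N,
      ∃ L : ℂ → ℂ, IsLtw f χ L ∧ ‖L (1 / 2)‖ = ctw f χ) ∧
    (∀ N q : ℕ, N.Prime → 3 ≤ N → ∀ χ : DirichletCharacter ℂ q, RealPrim N q χ →
      ((q * N : ℕ) : ℝ) ^ (-(330 * ((HH N).ncard : ℝ))) ≤
        ∏ᶠ f ∈ {f ∈ HH N | ctw f χ ≠ 0}, ctw f χ) ∧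
    (∀ N q : ℕ, N.Prime → 650 ≤ N → ∀ χ : DirichletCharacter ℂ q, RealPrim N q χ →
      ∀ A : ℝ, 0 < A → (({f ∈ H N 1 | |cv f| * ctw f χ ≠ 0 ∧
        |cv f| * ctw f χ < ((q * N : ℕ) : ℝ) ^ (-A)}.ncard : ℕ) : ℝ) ≤
          26880 / A * ((H N 1).ncard : ℝ)) ∧
    (∀ (K : ℝ) (q : ℕ → ℕ) (χ : ∀ N : ℕ, DirichletCharacter ℂ (q N)), 0 ≤ K →
      (∀ᶠ N in primes, RealPrim N (q N) (χ N) ∧ ((q N : ℕ) : ℝ) ≤ (N : ℝ) ^ K) →
      ∀ θ : ℝ, θ < liminf (fun N : ℕ =>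
        (({f ∈ H N 1 | |cv f| * ctw f (χ N) ≠ 0}.ncard : ℕ) : ℝ) / ((H N 1).ncard : ℝ)) primes ↔
      ∃ A : ℝ, 0 < A ∧ θ < liminf (fun N : ℕ =>
        (({f ∈ H N 1 | (N : ℝ) ^ (-A) ≤ |cv f| * ctw f (χ N)}.ncard : ℕ) : ℝ) /
          ((H N 1).ncard : ℝ)) primes) := by
  refine ⟨fun N q hN χ h f hf => ?_, fun N q hN h3 χ h => ?_,
    fun N q hN h3 χ h A hA => bc_count hN h3 h hA, fun K q χ hK hq θ => ?_⟩
  · haveI : NeZero N := ⟨hN.ne_zero⟩
    haveI : NeZero q := ⟨by have := h.one_lt; omega⟩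
    rw [HH_eq] at hf
    obtain ⟨ε, hε⟩ := hf
    exact ltw hε h
  · classical
    obtain ⟨B, hB, hp, -⟩ := tone hN h3 h
    rw [hB, Set.ncard_coe_finset]
    refine hp.trans (le_of_eq ?_)
    have e1 : ({f ∈ (B : Set (S2 N)) | ctw f χ ≠ 0} : Set (S2 N)) =
        ((B.filter fun f => ctw f χ ≠ 0 : Finset (S2 N)) : Set (S2 N)) := by
      ext f
      simp
    rw [e1, finprod_mem_coe_finset]
  · have hbot : primes.NeBot := by
      unfold primes
      rw [← frequently_mem_iff_neBot]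
      exact Nat.frequently_atTop_iff_infinite.2 Nat.infinite_setOf_prime
    have hprime : ∀ᶠ N in primes, N.Prime :=
      (eventually_principal.2 fun _ h => h : ∀ᶠ N in 𝓟 {N : ℕ | N.Prime}, N.Prime).filter_mono
        inf_le_right
    have hlarge : ∀ᶠ N in primes, 650 ≤ N :=
      (eventually_ge_atTop 650).filter_mono inf_le_left
    refine Fin.liminf_iff (l := primes) (fun N => ((H N 1).ncard : ℝ))
      (fun N => (({f ∈ H N 1 | |cv f| * ctw f (χ N) ≠ 0}.ncard : ℕ) : ℝ))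
      (fun A N => (({f ∈ H N 1 | (N : ℝ) ^ (-A) ≤ |cv f| * ctw f (χ N)}.ncard : ℕ) : ℝ))
      (26880 * (K + 1)) (by positivity) ?_ ?_ ?_ ?_ θ
    · filter_upwards [hprime, hlarge] with N hN h100
      have := (even_many hN (by omega)).1
      have : 0 < (H N 1).ncard := by omega
      exact_mod_cast this
    · filter_upwards [hprime, hlarge] with N hN h100
      obtain ⟨B, hB, -⟩ := one hN (by omega)
      refine ⟨Nat.cast_nonneg _, ?_⟩
      have hfin : (H N 1).Finite := (by rw [hB]; exact B.finite_toSet : (HH N).Finite).subset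
        fun f hf => Or.inl hf
      have hs : {f ∈ H N 1 | |cv f| * ctw f (χ N) ≠ 0} ⊆ H N 1 := fun f hf => hf.1
      exact Nat.cast_le.2 (Set.ncard_le_ncard hs hfin)
    · intro A
      filter_upwards [hprime, hlarge] with N hN h100
      obtain ⟨B, hB, -⟩ := one hN (by omega)
      refine ⟨Nat.cast_nonneg _, ?_⟩
      have hfin : (HH N).Finite := by rw [hB]; exact B.finite_toSet
      have hN0 : (0 : ℝ) < N := Nat.cast_pos.2 hN.pos
      have hs : {f ∈ H N 1 | (N : ℝ) ^ (-A) ≤ |cv f| * ctw f (χ N)} ⊆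
          {f ∈ H N 1 | |cv f| * ctw f (χ N) ≠ 0} := by
        refine fun f hf => ⟨hf.1, fun h0 => ?_⟩
        have h1 := hf.2
        rw [h0] at h1
        exact absurd (Real.rpow_pos_of_pos hN0 (-A)) (not_lt.2 h1)
      exact Nat.cast_le.2 (Set.ncard_le_ncard hs (hfin.subset fun f hf => Or.inl hf.1))
    · intro A hA
      filter_upwards [hprime, hlarge, hq] with N hN h100 hqN
      obtain ⟨B, hB, -⟩ := one hN (by omega)
      have hfin : (HH N).Finite := by rw [hB]; exact B.finite_toSet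
      have hN0 : (0 : ℝ) < N := Nat.cast_pos.2 hN.pos
      have hN1 : (1 : ℝ) ≤ N := by exact_mod_cast hN.one_le
      have hK1 : 0 < K + 1 := by linarith
      have h1 := bc_count hN h100 hqN.1 (A := A / (K + 1)) (by positivity)
      have hM0 : (0 : ℝ) < ((q N * N : ℕ) : ℝ) := by
        have := hqN.1.one_lt
        have h8 : 0 < q N * N := Nat.mul_pos (by omega) hN.pos
        exact_mod_cast h8
      have hM : ((q N * N : ℕ) : ℝ) ≤ (N : ℝ) ^ (K + 1) := by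
        push_cast
        rw [Real.rpow_add hN0, Real.rpow_one]
        exact mul_le_mul_of_nonneg_right hqN.2 hN0.le
      have hpow : (N : ℝ) ^ (-A) ≤ ((q N * N : ℕ) : ℝ) ^ (-(A / (K + 1))) := by
        rw [Real.rpow_neg hN0.le, Real.rpow_neg hM0.le]
        refine inv_anti₀ (Real.rpow_pos_of_pos hM0 _) ?_
        calc ((q N * N : ℕ) : ℝ) ^ (A / (K + 1)) ≤ ((N : ℝ) ^ (K + 1)) ^ (A / (K + 1)) :=
              Real.rpow_le_rpow hM0.le hM (by positivity)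
          _ = (N : ℝ) ^ A := by
            rw [← Real.rpow_mul hN0.le]
            congr 1
            field_simp
      have h2 : {f ∈ H N 1 | |cv f| * ctw f (χ N) ≠ 0} ⊆
          {f ∈ H N 1 | (N : ℝ) ^ (-A) ≤ |cv f| * ctw f (χ N)} ∪
          {f ∈ H N 1 | |cv f| * ctw f (χ N) ≠ 0 ∧
            |cv f| * ctw f (χ N) < ((q N * N : ℕ) : ℝ) ^ (-(A / (K + 1)))} := by
        intro f hf
        rcases le_or_gt ((N : ℝ) ^ (-A)) (|cv f| * ctw f (χ N)) with h | h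
        · exact Or.inl ⟨hf.1, h⟩
        · exact Or.inr ⟨hf.1, hf.2, lt_of_lt_of_le h hpow⟩
      have h3 : {f ∈ H N 1 | |cv f| * ctw f (χ N) ≠ 0}.ncard ≤
          {f ∈ H N 1 | (N : ℝ) ^ (-A) ≤ |cv f| * ctw f (χ N)}.ncard +
          {f ∈ H N 1 | |cv f| * ctw f (χ N) ≠ 0 ∧
            |cv f| * ctw f (χ N) < ((q N * N : ℕ) : ℝ) ^ (-(A / (K + 1)))}.ncard := by
        refine (Set.ncard_le_ncard h2 ?_).trans (Set.ncard_union_le _ _)
        exact (hfin.subset fun f hf => Or.inl hf.1).union (hfin.subset fun f hf => Or.inl hf.1)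
      have h4 := (Nat.cast_le (α := ℝ)).2 h3
      rw [Nat.cast_add] at h4
      have h5 : 26880 / (A / (K + 1)) * ((H N 1).ncard : ℝ) =
          26880 * (K + 1) / A * ((H N 1).ncard : ℝ) := by
        field_simp
      rw [h5] at h1
      linarith

end Pool.Agent.Results.MP_cc4f83_nt.QuadraticFields
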